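import Pool.Agent.Helper69.MF.StB

set_option autoImplicit false

open Set Topology Filter MeasureTheory

namespace Pool.Agent.Helper3.MF

open Pool.Agent.Helper31.CY Pool.Agent.Helper69.MF

theorem pt0 (a b c : ℝ) : pt a b c 0 = a := by simp [pt]
theorem pt1 (a b c : ℝ) : pt a b c 1 = b := by simp [pt]
theorem pt2 (a b c : ℝ) : pt a b c 2 = c := by simp [pt]

theorem rot_exp (a : ℝ) (z : E3) : rot a z = (Real.cos a * z 0 - Real.sin a * z 1) • bv 0
    + (Real.sin a * z 0 + Real.cos a * z 1) • bv 1 + z 2 • bv 2 := by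
  ext i
  fin_cases i <;> simp [rot, pt, bv]

theorem rot_zero (z : E3) : rot 0 z = z := by
  ext i
  fin_cases i <;> simp [rot, pt]

/-- derivative in the angle -/
theorem rot_hasDerivAt (z : E3) (a : ℝ) : HasDerivAt (fun a => rot a z) (Jv (rot a z)) a := by
  have h1 : HasDerivAt (fun a : ℝ => (Real.cos a * z 0 - Real.sin a * z 1) • bv 0
      + (Real.sin a * z 0 + Real.cos a * z 1) • bv 1 + z 2 • bv 2)
      ((-Real.sin a * z 0 - Real.cos a * z 1) • bv 0
        + (Real.cos a * z 0 + -Real.sin a * z 1) • bv 1) a := by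
    have hc := Real.hasDerivAt_cos a
    have hs := Real.hasDerivAt_sin a
    have := ((((hc.mul_const (z 0)).sub (hs.mul_const (z 1))).smul_const (bv 0)).add
      (((hs.mul_const (z 0)).add (hc.mul_const (z 1))).smul_const (bv 1))).add_const (z 2 • bv 2)
    exact this
  have h2 : (fun a : ℝ => rot a z) = fun a : ℝ => (Real.cos a * z 0 - Real.sin a * z 1) • bv 0
      + (Real.sin a * z 0 + Real.cos a * z 1) • bv 1 + z 2 • bv 2 := by
    funext a
    exact rot_exp a z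
  rw [h2]
  convert h1 using 1
  ext i
  fin_cases i <;> simp [Jv, rot, pt, bv] <;> ring

/-- derivative in the point -/
theorem rot_hasDerivAt2 (q w : E3) (a s : ℝ) :
    HasDerivAt (fun s : ℝ => rot a (q + s • w)) (rot a w) s := by
  have h2 : (fun s : ℝ => rot a (q + s • w)) = fun s : ℝ => rot a q + s • rot a w := by
    funext s
    ext i
    fin_cases i <;> simp [rot, pt] <;> ring
  rw [h2]
  have := (((hasDerivAt_id s).smul_const (rot a w)).const_add (rot a q))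
  simpa using this

theorem X_diff (q w : E3) (p : ℝ × ℝ) :
    DifferentiableAt ℝ (fun p : ℝ × ℝ => rot p.1 (q + p.2 • w)) p := by
  have h2 : (fun p : ℝ × ℝ => rot p.1 (q + p.2 • w)) = fun p : ℝ × ℝ =>
      (Real.cos p.1 * (q 0 + p.2 * w 0) - Real.sin p.1 * (q 1 + p.2 * w 1)) • bv 0
      + (Real.sin p.1 * (q 0 + p.2 * w 0) + Real.cos p.1 * (q 1 + p.2 * w 1)) • bv 1
      + (q 2 + p.2 * w 2) • bv 2 := by
    funext p
    rw [rot_exp]
    simp
  rw [h2]
  fun_prop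

theorem rot_cont : Continuous (fun p : ℝ × E3 => rot p.1 p.2) := by
  have h2 : (fun p : ℝ × E3 => rot p.1 p.2) = fun p : ℝ × E3 =>
      (Real.cos p.1 * p.2 0 - Real.sin p.1 * p.2 1) • bv 0
      + (Real.sin p.1 * p.2 0 + Real.cos p.1 * p.2 1) • bv 1
      + p.2 2 • bv 2 := by
    funext p
    rw [rot_exp]
  rw [h2]
  fun_prop

theorem Jv_cont : Continuous (fun x : E3 => Jv x) := by
  have h2 : (fun x : E3 => Jv x) = fun x : E3 => (-(x 1)) • bv 0 + (x 0) • bv 1 := by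
    funext x
    ext i
    fin_cases i <;> simp [Jv, pt, bv]
  rw [h2]
  fun_prop

theorem perp (q w : E3) (a s : ℝ) (hw : dt w (Jv q) = 0) :
    dt (rot a w) (Jv (rot a (q + s • w))) = 0 := by
  have hcs := Real.sin_sq_add_cos_sq a
  simp only [dt, Jv, rot, pt0, pt1, pt2, PiLp.add_apply, PiLp.smul_apply, smul_eq_mul] at hw ⊢
  linear_combination (Real.sin a ^ 2 + Real.cos a ^ 2) * hw

/-- the local statement -/
theorem core (q : E3) (f : E3 → ℝ) (U : Set E3) (hU : IsOpen U) (hq : q ∈ U)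
    (hf : ContDiffOn ℝ 1 f U) (hq0 : f q = 0) (hpos : 0 < fderiv ℝ f q (Jv q))
    (r : ℝ) (hr : 0 < r)
    (hz : ∀ x, dist x q < r → f x = 0 → ∀ w, dt w (Jv x) = 0 → fderiv ℝ f x w = 0) :
    ∃ ε : ℝ, 0 < ε ∧ ∀ y, dist y q < ε → dt y (Jv q) = 0 → f y = 0 := by
  have hdq : dt q (Jv q) = 0 := by
    simp only [dt, Jv, pt0, pt1, pt2]
    ring
  -- differentiability and continuity of the derivative
  have hfd : ∀ x ∈ U, DifferentiableAt ℝ f x := fun x hx =>
    (hf.differentiableOn (by norm_num)).differentiableAt (hU.mem_nhds hx)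
  have hfc : ContinuousOn (fderiv ℝ f) U := hf.continuousOn_fderiv_of_isOpen hU le_rfl
  have hcc : ContinuousAt (fun x => fderiv ℝ f x (Jv x)) q := by
    have h1 : ContinuousAt (fderiv ℝ f) q := hfc.continuousAt (hU.mem_nhds hq)
    exact h1.clm_apply Jv_cont.continuousAt
  obtain ⟨r1, hr1, hr1U⟩ := Metric.isOpen_iff.1 hU q hq
  have hev : ∀ᶠ x in 𝓝 q, 0 < fderiv ℝ f x (Jv x) := hcc.eventually (lt_mem_nhds hpos)
  obtain ⟨r2, hr2, hr2p⟩ := Metric.eventually_nhds_iff.1 hev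
  obtain ⟨r0, hr0, hr0r, hr0r1, hr0r2⟩ : ∃ r0 : ℝ, 0 < r0 ∧ r0 ≤ r ∧ r0 ≤ r1 ∧ r0 ≤ r2 :=
    ⟨min r (min r1 r2), lt_min hr (lt_min hr1 hr2), min_le_left _ _,
      le_trans (min_le_right _ _) (min_le_left _ _), le_trans (min_le_right _ _) (min_le_right _ _)⟩
  have inU : ∀ x, dist x q < r0 → x ∈ U := fun x hx => hr1U (lt_of_lt_of_le hx hr0r1)
  have cpos : ∀ x, dist x q < r0 → 0 < fderiv ℝ f x (Jv x) := fun x hx =>
    hr2p (lt_of_lt_of_le hx hr0r2)
  -- the box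
  have hrc : ContinuousAt (fun p : ℝ × E3 => rot p.1 p.2) (0, q) := rot_cont.continuousAt
  have hev2 : ∀ᶠ p : ℝ × E3 in 𝓝 ((0 : ℝ), q), dist (rot p.1 p.2) q < r0 := by
    have h1 : Tendsto (fun p : ℝ × E3 => rot p.1 p.2) (𝓝 (0, q)) (𝓝 q) := by
      have := hrc.tendsto
      simpa [rot_zero] using this
    exact h1 (Metric.ball_mem_nhds q hr0)
  obtain ⟨d, hd, hdp⟩ := Metric.eventually_nhds_iff.1 hev2
  set δ : ℝ := d / 2 with hδ
  have hδ0 : 0 < δ := by positivity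
  have box : ∀ a : ℝ, |a| ≤ δ → ∀ y : E3, dist y q < δ → dist (rot a y) q < r0 := by
    intro a ha y hy
    have h1 : dist (a, y) ((0 : ℝ), q) < d := by
      rw [Prod.dist_eq]
      refine max_lt ?_ ?_
      · simp only [Real.dist_eq, sub_zero]
        rw [hδ] at ha
        linarith
      · rw [hδ] at hy
        simp only
        linarith
    have h2 := @hdp (a, y) h1
    exact h2
  have Fder : ∀ a : ℝ, |a| ≤ δ → ∀ y : E3, dist y q < δ →
      HasDerivAt (fun a => f (rot a y)) (fderiv ℝ f (rot a y) (Jv (rot a y))) a := by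
    intro a ha y hy
    exact (hfd _ (inU _ (box a ha y hy))).hasFDerivAt.comp_hasDerivAt a (rot_hasDerivAt y a)
  have mono : ∀ y : E3, dist y q < δ → StrictMonoOn (fun a => f (rot a y)) (Icc (-δ) δ) := by
    intro y hy
    refine strictMonoOn_of_deriv_pos (convex_Icc _ _) ?_ ?_
    · intro a ha
      exact (Fder a (abs_le.2 ha) y hy).continuousAt.continuousWithinAt
    · intro a ha
      rw [interior_Icc] at ha
      have ha' : |a| ≤ δ := abs_le.2 ⟨ha.1.le, ha.2.le⟩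
      rw [(Fder a ha' y hy).deriv]
      exact cpos _ (box a ha' y hy)
  have hqd : dist q q < δ := by rw [dist_self]; exact hδ0
  have mδ : δ ∈ Icc (-δ) δ := ⟨by linarith, le_rfl⟩
  have mδ' : -δ ∈ Icc (-δ) δ := ⟨le_rfl, by linarith⟩
  have m0 : (0 : ℝ) ∈ Icc (-δ) δ := ⟨by linarith, hδ0.le⟩
  have hp1 : 0 < f (rot δ q) := by
    have := mono q hqd m0 mδ hδ0
    simpa [rot_zero, hq0] using this
  have hp2 : f (rot (-δ) q) < 0 := by
    have := mono q hqd mδ' m0 (by linarith)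
    simpa [rot_zero, hq0] using this
  have cont1 : ∀ a : ℝ, |a| ≤ δ → ∀ y : E3, dist y q < δ →
      ContinuousAt (fun y => f (rot a y)) y := by
    intro a ha y hy
    have h1 : ContinuousAt f (rot a y) := (hfd _ (inU _ (box a ha y hy))).continuousAt
    have h2 : ContinuousAt (fun y : E3 => rot a y) y :=
      (rot_cont.comp (continuous_const.prodMk continuous_id)).continuousAt
    exact ContinuousAt.comp (f := fun y : E3 => rot a y) h1 h2
  have hev3 : ∀ᶠ y in 𝓝 q, 0 < f (rot δ y) :=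
    (cont1 δ (by rw [abs_of_pos hδ0]) q hqd).eventually (lt_mem_nhds hp1)
  have hev4 : ∀ᶠ y in 𝓝 q, f (rot (-δ) y) < 0 :=
    (cont1 (-δ) (by rw [abs_neg, abs_of_pos hδ0]) q hqd).eventually (gt_mem_nhds hp2)
  obtain ⟨e, he, hep⟩ := Metric.eventually_nhds_iff.1 (hev3.and hev4)
  refine ⟨min e δ, lt_min he hδ0, fun y1 hy1 hy1J => ?_⟩
  set ε : ℝ := min e δ with hε
  have hεe : ε ≤ e := min_le_left _ _
  have hεδ : ε ≤ δ := min_le_right _ _
  -- existence of the zero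
  have ex : ∀ y : E3, dist y q < ε → ∃ a ∈ Ioo (-δ) δ, f (rot a y) = 0 := by
    intro y hy
    have hyδ : dist y q < δ := lt_of_lt_of_le hy hεδ
    have h1 := hep (lt_of_lt_of_le hy hεe)
    have hcont : ContinuousOn (fun a => f (rot a y)) (Icc (-δ) δ) := fun a ha =>
      (Fder a (abs_le.2 ha) y hyδ).continuousAt.continuousWithinAt
    have := intermediate_value_Ioo (by linarith : -δ ≤ δ) hcont
    obtain ⟨a, ha, hfa⟩ := this ⟨h1.2, h1.1⟩
    exact ⟨a, ha, hfa⟩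
  set w : E3 := y1 - q with hw
  have hwJ : dt w (Jv q) = 0 := by
    have : dt w (Jv q) = dt y1 (Jv q) - dt q (Jv q) := by
      simp only [dt, hw, PiLp.sub_apply]
      ring
    rw [this, hy1J, hdq, sub_zero]
  set I : Set ℝ := {s : ℝ | dist (q + s • w) q < ε} with hI
  have hIo : IsOpen I := by
    have : Continuous (fun s : ℝ => dist (q + s • w) q) := by fun_prop
    exact isOpen_lt this continuous_const
  have hII : ∀ s ∈ Icc (0 : ℝ) 1, s ∈ I := by
    intro s hs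
    show dist (q + s • w) q < ε
    rw [dist_eq_norm, add_sub_cancel_left, norm_smul, Real.norm_eq_abs, abs_of_nonneg hs.1]
    have h1 : ‖w‖ < ε := by
      rw [hw, ← dist_eq_norm]
      exact hy1
    have h2 : 0 ≤ ‖w‖ := norm_nonneg _
    nlinarith [hs.1, hs.2]
  have ex2 : ∀ s : ℝ, ∃ a : ℝ, s ∈ I → a ∈ Ioo (-δ) δ ∧ f (rot a (q + s • w)) = 0 := by
    intro s
    by_cases hs : s ∈ I
    · obtain ⟨a, ha, hfa⟩ := ex _ hs
      exact ⟨a, fun _ => ⟨ha, hfa⟩⟩
    · exact ⟨0, fun h => absurd h hs⟩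
  choose A hA using ex2
  have Iδ : ∀ s ∈ I, dist (q + s • w) q < δ := fun s hs => lt_of_lt_of_le hs hεδ
  -- continuity of `A`
  have Acont : ∀ s0 ∈ I, ContinuousAt A s0 := by
    intro s0 hs0
    obtain ⟨hA1, hA2⟩ := hA s0 hs0
    rw [Metric.continuousAt_iff]
    intro η hη
    obtain ⟨ζ, hζ0, hζη, hζ1, hζ2⟩ : ∃ ζ : ℝ, 0 < ζ ∧ ζ ≤ η ∧ A s0 + ζ < δ ∧ -δ < A s0 - ζ := by
      refine ⟨min η (min ((δ - A s0) / 2) ((A s0 + δ) / 2)), ?_, min_le_left _ _, ?_, ?_⟩
      · refine lt_min hη (lt_min ?_ ?_)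
        · linarith [hA1.2]
        · linarith [hA1.1]
      · have : min η (min ((δ - A s0) / 2) ((A s0 + δ) / 2)) ≤ (δ - A s0) / 2 :=
          le_trans (min_le_right _ _) (min_le_left _ _)
        linarith [hA1.2]
      · have : min η (min ((δ - A s0) / 2) ((A s0 + δ) / 2)) ≤ (A s0 + δ) / 2 :=
          le_trans (min_le_right _ _) (min_le_right _ _)
        linarith [hA1.1]
    have mA : A s0 ∈ Icc (-δ) δ := ⟨hA1.1.le, hA1.2.le⟩
    have mP : A s0 + ζ ∈ Icc (-δ) δ := ⟨by linarith [hA1.1], hζ1.le⟩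
    have mM : A s0 - ζ ∈ Icc (-δ) δ := ⟨hζ2.le, by linarith [hA1.2]⟩
    have g1 : 0 < f (rot (A s0 + ζ) (q + s0 • w)) := by
      have := mono _ (Iδ s0 hs0) mA mP (by linarith)
      simpa [hA2] using this
    have g2 : f (rot (A s0 - ζ) (q + s0 • w)) < 0 := by
      have := mono _ (Iδ s0 hs0) mM mA (by linarith)
      simpa [hA2] using this
    have csm : ContinuousAt (fun s : ℝ => q + s • w) s0 := by fun_prop
    have c1 : ContinuousAt (fun s : ℝ => f (rot (A s0 + ζ) (q + s • w))) s0 :=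
      ContinuousAt.comp (g := fun y => f (rot (A s0 + ζ) y)) (f := fun s : ℝ => q + s • w)
        (cont1 _ (abs_le.2 mP) _ (Iδ s0 hs0)) csm
    have c2 : ContinuousAt (fun s : ℝ => f (rot (A s0 - ζ) (q + s • w))) s0 :=
      ContinuousAt.comp (g := fun y => f (rot (A s0 - ζ) y)) (f := fun s : ℝ => q + s • w)
        (cont1 _ (abs_le.2 mM) _ (Iδ s0 hs0)) csm
    have ev : ∀ᶠ s in 𝓝 s0, s ∈ I ∧ 0 < f (rot (A s0 + ζ) (q + s • w)) ∧
        f (rot (A s0 - ζ) (q + s • w)) < 0 :=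
      (show ∀ᶠ s in 𝓝 s0, s ∈ I from hIo.mem_nhds hs0).and
        ((c1.eventually (lt_mem_nhds g1)).and (c2.eventually (gt_mem_nhds g2)))
    obtain ⟨κ, hκ, hκp⟩ := Metric.eventually_nhds_iff.1 ev
    refine ⟨κ, hκ, fun s hs => ?_⟩
    obtain ⟨hsI, h1, h2⟩ := hκp hs
    obtain ⟨hB1, hB2⟩ := hA s hsI
    have mB : A s ∈ Icc (-δ) δ := ⟨hB1.1.le, hB1.2.le⟩
    have u1 : A s < A s0 + ζ := by
      have := (mono _ (Iδ s hsI)).lt_iff_lt mB mP
      exact this.1 (by simpa [hB2] using h1)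
    have u2 : A s0 - ζ < A s := by
      have := (mono _ (Iδ s hsI)).lt_iff_lt mM mB
      exact this.1 (by simpa [hB2] using h2)
    rw [Real.dist_eq, abs_lt]
    constructor <;> linarith
  -- the derivative of `A` vanishes
  have Ader : ∀ s0 ∈ I, HasDerivAt A 0 s0 := by
    intro s0 hs0
    obtain ⟨hA1, hA2⟩ := hA s0 hs0
    have haa : |A s0| ≤ δ := abs_le.2 ⟨hA1.1.le, hA1.2.le⟩
    set x0 : E3 := rot (A s0) (q + s0 • w) with hx0
    have hx0d : dist x0 q < r0 := box _ haa _ (Iδ s0 hs0)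
    have hc : 0 < fderiv ℝ f x0 (Jv x0) := cpos x0 hx0d
    have hperp : fderiv ℝ f x0 (rot (A s0) w) = 0 :=
      hz x0 (lt_of_lt_of_le hx0d hr0r) hA2 _ (perp q w (A s0) s0 hwJ)
    set X : ℝ × ℝ → E3 := fun p => rot p.1 (q + p.2 • w) with hX
    have hXd : HasFDerivAt X (fderiv ℝ X (A s0, s0)) (A s0, s0) :=
      (X_diff q w (A s0, s0)).hasFDerivAt
    have hX1 : fderiv ℝ X (A s0, s0) (1, 0) = Jv x0 := by
      have h1 : HasDerivAt (fun a : ℝ => (a, s0)) ((1 : ℝ), (0 : ℝ)) (A s0) :=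
        (hasDerivAt_id (A s0)).prodMk (hasDerivAt_const _ _)
      have h2 := HasFDerivAt.comp_hasDerivAt (A s0) hXd h1
      exact h2.unique (rot_hasDerivAt (q + s0 • w) (A s0))
    have hX2 : fderiv ℝ X (A s0, s0) (0, 1) = rot (A s0) w := by
      have h1 : HasDerivAt (fun s : ℝ => (A s0, s)) ((0 : ℝ), (1 : ℝ)) s0 :=
        (hasDerivAt_const _ _).prodMk (hasDerivAt_id s0)
      have h2 := HasFDerivAt.comp_hasDerivAt s0 hXd h1
      exact h2.unique (rot_hasDerivAt2 q w (A s0) s0)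
    have hF : HasFDerivAt (fun p : ℝ × ℝ => f (X p))
        ((fderiv ℝ f x0).comp (fderiv ℝ X (A s0, s0))) (A s0, s0) :=
      HasFDerivAt.comp (A s0, s0) (hfd x0 (inU x0 hx0d)).hasFDerivAt hXd
    set c : ℝ := fderiv ℝ f x0 (Jv x0) with hcdef
    have hL : ∀ α σ : ℝ, ((fderiv ℝ f x0).comp (fderiv ℝ X (A s0, s0))) (α, σ) = c * α := by
      intro α σ
      have h1 : ((α, σ) : ℝ × ℝ) = α • ((1 : ℝ), (0 : ℝ)) + σ • ((0 : ℝ), (1 : ℝ)) := by
        simp
      rw [h1, map_add, map_smul, map_smul, ContinuousLinearMap.comp_apply,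
        ContinuousLinearMap.comp_apply, hX1, hX2, hperp, smul_eq_mul, smul_eq_mul, mul_zero,
        add_zero]
      ring
    rw [hasDerivAt_iff_isLittleO, Asymptotics.isLittleO_iff]
    intro η hη
    have hO := hF.isLittleO
    rw [Asymptotics.isLittleO_iff] at hO
    obtain ⟨ε1, hε1, hε1a, hε1b⟩ : ∃ ε1 : ℝ, 0 < ε1 ∧ ε1 ≤ c / 2 ∧ ε1 ≤ c * η / 2 :=
      ⟨min (c / 2) (c * η / 2), lt_min (by positivity) (by positivity), min_le_left _ _,
        min_le_right _ _⟩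
    have hO1 := hO hε1
    have hT : Tendsto (fun s : ℝ => (A s, s)) (𝓝 s0) (𝓝 (A s0, s0)) :=
      (Acont s0 hs0).tendsto.prodMk_nhds tendsto_id
    have hO2 := hT.eventually hO1
    filter_upwards [hO2, hIo.mem_nhds hs0] with s hs hsI
    have e1 : f (X (A s, s)) = 0 := (hA s hsI).2
    have e2 : f (X (A s0, s0)) = 0 := hA2
    rw [e1, e2, Prod.mk_sub_mk, hL] at hs
    simp only [smul_zero, sub_zero]
    have e3 : ‖((A s - A s0, s - s0) : ℝ × ℝ)‖ ≤ |A s - A s0| + |s - s0| := by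
      rw [Prod.norm_def]
      simp only [Real.norm_eq_abs]
      exact max_le (le_add_of_nonneg_right (abs_nonneg _)) (le_add_of_nonneg_left (abs_nonneg _))
    have e4 : ‖(0 : ℝ) - 0 - c * (A s - A s0)‖ = c * |A s - A s0| := by
      rw [Real.norm_eq_abs, sub_zero, zero_sub, abs_neg, abs_mul, abs_of_pos hc]
    rw [e4] at hs
    rw [Real.norm_eq_abs, Real.norm_eq_abs]
    have e5 : c * |A s - A s0| ≤ ε1 * (|A s - A s0| + |s - s0|) :=
      le_trans hs (mul_le_mul_of_nonneg_left e3 hε1.le)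
    have n1 : 0 ≤ |A s - A s0| := abs_nonneg _
    have n2 : 0 ≤ |s - s0| := abs_nonneg _
    have e6 : ε1 * |A s - A s0| ≤ c / 2 * |A s - A s0| := mul_le_mul_of_nonneg_right hε1a n1
    have e7 : ε1 * |s - s0| ≤ c * η / 2 * |s - s0| := mul_le_mul_of_nonneg_right hε1b n2
    have e8 : c * |A s - A s0| ≤ c * (η * |s - s0|) := by nlinarith
    exact le_of_mul_le_mul_left e8 hc
  have hconst := constant_of_has_deriv_right_zero (f := A) (a := 0) (b := 1)
    (fun s hs => (Acont s (hII s hs)).continuousWithinAt)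
    (fun s hs => (Ader s (hII s ⟨hs.1, hs.2.le⟩)).hasDerivWithinAt)
  have h1 : A 1 = A 0 := hconst 1 ⟨zero_le_one, le_rfl⟩
  have hI0 : (0 : ℝ) ∈ I := hII 0 ⟨le_rfl, zero_le_one⟩
  have hI1 : (1 : ℝ) ∈ I := hII 1 ⟨zero_le_one, le_rfl⟩
  have h0 : A 0 = 0 := by
    obtain ⟨hB1, hB2⟩ := hA 0 hI0
    have hB3 : f (rot (A 0) q) = 0 := by simpa using hB2
    have hB4 : f (rot 0 q) = 0 := by rw [rot_zero]; exact hq0
    exact (mono q hqd).injOn ⟨hB1.1.le, hB1.2.le⟩ m0 (hB3.trans hB4.symm)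
  have h2 := (hA 1 hI1).2
  rw [h1, h0, rot_zero, one_smul, hw, add_sub_cancel] at h2
  exact h2

theorem dt_JJ (x : E3) : dt (Jv x) (Jv x) = x 0 ^ 2 + x 1 ^ 2 := by
  simp only [dt, Jv, pt0, pt1, pt2]
  ring

theorem dt_pos {x : E3} (h : 0 < rad x) : 0 < dt (Jv x) (Jv x) := by
  rw [dt_JJ]
  unfold rad at h
  exact Real.sqrt_pos.1 h

theorem dt_self (x : E3) : dt x (Jv x) = 0 := by
  simp only [dt, Jv, pt0, pt1, pt2]
  ring

theorem dt_sub_smul (x y z : E3) (t : ℝ) : dt (x - t • y) z = dt x z - t * dt y z := by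
  simp only [dt, PiLp.sub_apply, PiLp.smul_apply, smul_eq_mul]
  ring

theorem circ_closed (r h : ℝ) : IsClosed (circ r h) := by
  have h1 : circ r h = {x : E3 | x 0 ^ 2 + x 1 ^ 2 = r ^ 2} ∩ {x : E3 | x 2 = h} := by
    ext x
    simp [circ]
  rw [h1]
  refine IsClosed.inter (isClosed_eq ?_ ?_) (isClosed_eq ?_ ?_) <;> fun_prop

theorem rad_cont : Continuous (fun x : E3 => rad x) := by
  unfold rad
  fun_prop

theorem hG1 (hTC2 : StTC2) : StG1 := by
  intro r0 r1 h S hTN q hNP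
  obtain ⟨hqS, hqΓ, ⟨f, U, hU, hqU, hf, hfne, hS, hm⟩, hrad, hNrm⟩ := hNP
  have hf1 : ContDiffOn ℝ 1 f U := hf.of_le (by norm_num)
  have hfd : ∀ x ∈ U, DifferentiableAt ℝ f x := fun x hx =>
    (hf1.differentiableOn (by norm_num)).differentiableAt (hU.mem_nhds hx)
  have TC : ∀ x ∈ U, x ∈ S → ∀ v, v ∈ TCn S x ↔ fderiv ℝ f x v = 0 := fun x hx hxS =>
    hTC2 S x f U hU hx hf1 (hfne x hx) ((hS x hx).1 hxS) hS
  have hcq : fderiv ℝ f q (Jv q) ≠ 0 := by
    intro h0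
    have h1 := hNrm _ ((TC q hqU hqS _).2 h0)
    exact (dt_pos hrad).ne' h1
  have hfc : ContinuousOn (fderiv ℝ f) U := hf1.continuousOn_fderiv_of_isOpen hU le_rfl
  have hfcq : ContinuousAt (fderiv ℝ f) q := hfc.continuousAt (hU.mem_nhds hqU)
  have hcc : ContinuousAt (fun x => fderiv ℝ f x (Jv x)) q :=
    hfcq.clm_apply Jv_cont.continuousAt
  have ev1 : ∀ᶠ x in 𝓝 q, fderiv ℝ f x (Jv x) ≠ 0 := hcc.eventually_ne hcq
  have ev2 : ∀ᶠ x in 𝓝 q, x ∈ U := hU.mem_nhds hqU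
  have ev3 : ∀ᶠ x in 𝓝 q, x ∉ circ r0 0 ∪ circ r1 h :=
    ((circ_closed r0 0).union (circ_closed r1 h)).isOpen_compl.mem_nhds hqΓ
  have ev4 : ∀ᶠ x in 𝓝 q, 0 < rad x :=
    (rad_cont.continuousAt (x := q)).eventually (lt_mem_nhds hrad)
  obtain ⟨ε1, hε1, H1⟩ := Metric.eventually_nhds_iff.1 (ev1.and (ev2.and (ev3.and ev4)))
  have hNPx : ∀ x ∈ S, dist x q < ε1 → NP r0 r1 h S x := by
    intro x hxS hx
    obtain ⟨a1, a2, a3, a4⟩ := H1 hx
    have hreg : RegP S x := ⟨f, U, hU, a2, hf, hfne, hS, hm⟩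
    refine ⟨hxS, a3, hreg, a4, ?_⟩
    rcases hTN x hxS a3 hreg a4 with ht | hn
    · exact absurd ((TC x a2 hxS _).1 ht) a1
    · exact hn
  have hz : ∀ x, dist x q < ε1 → f x = 0 → ∀ w, dt w (Jv x) = 0 → fderiv ℝ f x w = 0 := by
    intro x hx hfx w hw
    obtain ⟨a1, a2, a3, a4⟩ := H1 hx
    have hxS : x ∈ S := (hS x a2).2 hfx
    have hN : Nrm S x := (hNPx x hxS hx).2.2.2.2
    have h1 : w - (fderiv ℝ f x w / fderiv ℝ f x (Jv x)) • Jv x ∈ TCn S x := by
      rw [TC x a2 hxS, map_sub, map_smul, smul_eq_mul, div_mul_cancel₀ _ a1, sub_self]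
    have h2 := hN _ h1
    rw [dt_sub_smul, hw, zero_sub, neg_eq_zero] at h2
    rcases mul_eq_zero.1 h2 with h3 | h3
    · exact (div_eq_zero_iff.1 h3).resolve_right a1
    · exact absurd h3 (dt_pos a4).ne'
  have hfq : f q = 0 := (hS q hqU).1 hqS
  obtain ⟨ε2, hε2, H2⟩ : ∃ ε : ℝ, 0 < ε ∧ ∀ y, dist y q < ε → dt y (Jv q) = 0 → f y = 0 := by
    rcases lt_or_gt_of_ne hcq with hneg | hpos
    · have hfn : ∀ x ∈ U, fderiv ℝ (fun x => - f x) x = - fderiv ℝ f x := fun x _ => by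
        exact fderiv_neg
      have hd : ∀ x, fderiv ℝ (fun x => - f x) x = - fderiv ℝ f x := fun x => by
        exact fderiv_neg
      obtain ⟨ε, hε, H⟩ := core q (fun x => - f x) U hU hqU hf1.neg (by simp [hfq])
        (by rw [hd, ContinuousLinearMap.neg_apply]; linarith) ε1 hε1
        (fun x hx hfx w hw => by
          rw [hd, ContinuousLinearMap.neg_apply, hz x hx (by simpa using hfx) w hw, neg_zero])
      exact ⟨ε, hε, fun y hy hyJ => by simpa using H y hy hyJ⟩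
    · exact core q f U hU hqU hf1 hfq hpos ε1 hε1 hz
  -- the other direction
  have hJc : ContinuousAt (fun x => fderiv ℝ f x (Jv q)) q := hfcq.clm_apply continuousAt_const
  have ev5 : ∀ᶠ x in 𝓝 q, fderiv ℝ f x (Jv q) ≠ 0 := hJc.eventually_ne hcq
  obtain ⟨ε3, hε3, H3⟩ := Metric.eventually_nhds_iff.1 (ev5.and ev2)
  set m : ℝ := dt (Jv q) (Jv q) with hmdef
  have hm0 : 0 < m := dt_pos hrad
  have hpc : Continuous (fun x : E3 => x - (dt x (Jv q) / m) • Jv q) := by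
    unfold dt
    fun_prop
  have hpq : q - (dt q (Jv q) / m) • Jv q = q := by
    rw [dt_self, zero_div, zero_smul, sub_zero]
  have ev6 : ∀ᶠ x in 𝓝 q, dist (x - (dt x (Jv q) / m) • Jv q) q < min ε2 ε3 := by
    have h1 : Tendsto (fun x : E3 => x - (dt x (Jv q) / m) • Jv q) (𝓝 q) (𝓝 q) := by
      have := hpc.tendsto q
      rwa [hpq] at this
    exact h1 (Metric.ball_mem_nhds q (lt_min hε2 hε3))
  obtain ⟨ε4, hε4, H4⟩ := Metric.eventually_nhds_iff.1 ev6
  refine ⟨min (min ε1 ε2) (min ε3 ε4), lt_min (lt_min hε1 hε2) (lt_min hε3 hε4),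
    fun x hxS hx => hNPx x hxS (lt_of_lt_of_le hx (le_trans (min_le_left _ _) (min_le_left _ _))),
    fun x hx => ?_⟩
  have hx1 : dist x q < ε1 := lt_of_lt_of_le hx (le_trans (min_le_left _ _) (min_le_left _ _))
  have hx2 : dist x q < ε2 := lt_of_lt_of_le hx (le_trans (min_le_left _ _) (min_le_right _ _))
  have hx3 : dist x q < ε3 := lt_of_lt_of_le hx (le_trans (min_le_right _ _) (min_le_left _ _))
  have hx4 : dist x q < ε4 := lt_of_lt_of_le hx (le_trans (min_le_right _ _) (min_le_right _ _))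
  have hxU : x ∈ U := (H1 hx1).2.1
  constructor
  · intro hxS
    have hfx : f x = 0 := (hS x hxU).1 hxS
    obtain ⟨t, ht⟩ : ∃ t : ℝ, t = dt x (Jv q) / m := ⟨_, rfl⟩
    have hy := @H4 x hx4
    rw [← ht] at hy
    obtain ⟨y, hyd⟩ : ∃ y : E3, y = x - t • Jv q := ⟨_, rfl⟩
    rw [← hyd] at hy
    have hyJ : dt y (Jv q) = 0 := by
      rw [hyd, dt_sub_smul, ht, ← hmdef, div_mul_cancel₀ _ hm0.ne', sub_self]
    have hfy : f y = 0 := H2 y (lt_of_lt_of_le hy (min_le_left _ _)) hyJ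
    have hy3 : dist y q < ε3 := lt_of_lt_of_le hy (min_le_right _ _)
    have hxy : x = y + t • Jv q := by rw [hyd, sub_add_cancel]
    have seg : ∀ s ∈ Icc (0 : ℝ) 1, dist (y + (s * t) • Jv q) q < ε3 := by
      intro s hs
      have h1 : (1 - s) • y + s • x ∈ Metric.ball q ε3 :=
        (convex_ball q ε3) hy3 hx3 (by linarith [hs.2]) hs.1 (by ring)
      have h2 : (1 - s) • y + s • x = y + (s * t) • Jv q := by
        rw [hxy, smul_add, smul_smul, ← add_assoc, ← add_smul]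
        simp
      rw [h2] at h1
      exact h1
    have der : ∀ s ∈ Icc (0 : ℝ) 1, HasDerivAt (fun s : ℝ => f (y + (s * t) • Jv q))
        (fderiv ℝ f (y + (s * t) • Jv q) (t • Jv q)) s := by
      intro s hs
      have h1 : HasDerivAt (fun s : ℝ => y + (s * t) • Jv q) (t • Jv q) s := by
        have := (((hasDerivAt_id s).mul_const t).smul_const (Jv q)).const_add y
        simpa using this
      exact (hfd _ (H3 (seg s hs)).2).hasFDerivAt.comp_hasDerivAt s h1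
    obtain ⟨s, hs, hs0⟩ := exists_hasDerivAt_eq_zero (zero_lt_one (α := ℝ))
      (fun s hs => (der s hs).continuousAt.continuousWithinAt)
      (by simp only [zero_mul, zero_smul, add_zero, one_mul, ← hxy, hfx, hfy])
      (fun s hs => der s ⟨hs.1.le, hs.2.le⟩)
    rw [map_smul, smul_eq_mul] at hs0
    have h5 := (H3 (seg s ⟨hs.1.le, hs.2.le⟩)).1
    have h6 : t = 0 := (mul_eq_zero.1 hs0).resolve_right h5
    rw [h6] at ht
    exact (div_eq_zero_iff.1 ht.symm).resolve_right hm0.ne'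
  · intro hxJ
    exact (hS x hxU).2 (H2 x hx2 hxJ)

end Pool.Agent.Helper3.MF
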